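import Pool.Agent.Lib.MP_17d4d1_pr.S.Iface

set_option autoImplicit false
set_option linter.unusedSectionVars false

/-!
# REPR: FKG weights are monotone images of product weights (helper72)
-/

namespace Pool.Agent.Lib.MP_17d4d1_pr.S.H72

open Finset Pool.Agent.Lib.MP_17d4d1_pr Pool.Agent.Lib.MP_17d4d1_pr.S

section pws

variable {κ : Type} [Fintype κ] [DecidableEq κ]

theorem sum_pw_avoid (r : κ → ℝ) (Q : Finset κ) :
    ∑ S : Finset κ, pw r S * (if Disjoint S Q then 1 else 0) = ∏ i ∈ Q, (1 - r i) := by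
  have h := Finset.prod_add (fun i => if i ∈ Q then 0 else r i) (fun i => 1 - r i)
    (univ : Finset κ)
  have h1 : ∏ i : κ, ((if i ∈ Q then 0 else r i) + (1 - r i)) = ∏ i ∈ Q, (1 - r i) := by
    rw [← prod_subset (subset_univ Q)]
    · refine prod_congr rfl fun i hi => ?_
      rw [if_pos hi, zero_add]
    · intro i _ hi
      rw [if_neg hi]
      ring
  rw [← h1, h, powerset_univ]
  refine sum_congr rfl fun S _ => ?_
  by_cases hd : Disjoint S Q
  · rw [if_pos hd, mul_one]
    unfold pw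
    rw [prod_ite]
    congr 1
    · refine prod_congr (by ext i; simp) fun i hi => ?_
      rw [if_neg fun h => disjoint_left.1 hd hi h]
    · refine prod_congr ?_ fun _ _ => rfl
      ext i; simp
  · rw [if_neg hd, mul_zero]
    rw [not_disjoint_iff] at hd
    obtain ⟨i, hi, hiQ⟩ := hd
    rw [prod_eq_zero hi (by rw [if_pos hiQ]), zero_mul]

theorem sum_pw (r : κ → ℝ) : ∑ S : Finset κ, pw r S = 1 := by
  have := sum_pw_avoid r ∅
  simpa using this

theorem pw_sumElim {κ' : Type} [Fintype κ'] [DecidableEq κ'] (r : κ → ℝ) (r' : κ' → ℝ)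
    (S : Finset (κ ⊕ κ')) : pw (Sum.elim r r') S = pw r S.toLeft * pw r' S.toRight := by
  unfold pw
  rw [Fintype.prod_sum_type]
  simp only [Sum.elim_inl, Sum.elim_inr, mem_toLeft, mem_toRight]

theorem sum_pw_sum {κ' : Type} [Fintype κ'] [DecidableEq κ'] (r : κ → ℝ) (r' : κ' → ℝ)
    (F : Finset κ → Finset κ' → ℝ) :
    ∑ S : Finset (κ ⊕ κ'), pw (Sum.elim r r') S * F S.toLeft S.toRight =
      ∑ b : Finset κ', pw r' b * ∑ a : Finset κ, pw r a * F a b := by
  rw [Fintype.sum_equiv (Finset.sumEquiv (α := κ) (β := κ')).toEquiv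
    (fun S => pw (Sum.elim r r') S * F S.toLeft S.toRight)
    (fun q => pw r q.1 * pw r' q.2 * F q.1 q.2) (fun S => by rw [pw_sumElim]; rfl),
    Fintype.sum_prod_type_right]
  refine sum_congr rfl fun b _ => ?_
  rw [mul_sum]
  exact sum_congr rfl fun a _ => by ring

end pws

variable {X : Type} [Fintype X] [DecidableEq X]

theorem inn_mono (s : X) : Monotone (inn s) := by
  intro A B hAB
  unfold inn
  by_cases hA : s ∈ A
  · simp [hA, hAB hA]
  · rw [if_neg hA]; split_ifs <;> norm_num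

/-- the family version -/
def Rep (X : Type) [Fintype X] [DecidableEq X] (S0 : Finset X) : Prop :=
  ∀ (T : Type) [Fintype T] [Preorder T] (μ : T → Finset X → ℝ) (c : T → Finset X),
    (∀ t A, 0 ≤ μ t A) → (∀ t, ∑ A, μ t A = 1) → (∀ s t, s ≤ t → Hol (μ s) (μ t)) →
    (∀ t A, μ t A ≠ 0 → A \ S0 = c t) →
    ∃ (κ : Type) (_ : Fintype κ) (_ : DecidableEq κ) (r : κ → ℝ) (Φ : T → Finset κ → Finset X),
      (∀ i, 0 ≤ r i) ∧ (∀ i, r i ≤ 1) ∧ (∀ t, Monotone (Φ t)) ∧
      (∀ s t, s ≤ t → ∀ B, Φ s B ≤ Φ t B) ∧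
      ∀ t (u : Finset X → ℝ), Ex (μ t) u = Ex (pw r) (u ∘ Φ t)

theorem rep_empty : Rep X ∅ := by
  intro T _ _ μ c h0 h1 hH hc
  simp only [sdiff_empty] at hc
  have e1 : ∀ t (u : Finset X → ℝ), Ex (μ t) u = u (c t) := fun t u => by
    rw [Ex_congr (v := fun _ => u (c t)) fun A hA => by rw [hc t A hA], Ex_const (h1 t)]
  have e2 : ∀ t, μ t (c t) = 1 := fun t => by
    rw [← h1 t]
    refine (sum_eq_single (c t) (fun A _ hA => ?_) (fun h => absurd (mem_univ _) h)).symm
    by_contra h2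
    exact hA (hc t A h2)
  refine ⟨Empty, inferInstance, inferInstance, fun i => i.elim, fun t _ => c t,
    fun i => i.elim, fun i => i.elim, fun t _ _ _ => le_rfl, fun s t hst B => ?_, fun t u => ?_⟩
  · have h3 := hH s t hst (c s) (c t)
    rw [e2 s, e2 t, mul_one] at h3
    have h4 : μ s (c s ⊓ c t) ≠ 0 := fun h => by rw [h, zero_mul] at h3; linarith
    have h5 := hc s _ h4
    change c s ≤ c t
    rw [← h5]
    exact inf_le_right
  · rw [e1 t u]
    have : ∀ B : Finset Empty, (u ∘ fun _ : Finset Empty => c t) B = u (c t) := fun _ => rfl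
    rw [Ex]
    simp only [this]
    rw [← sum_mul, sum_pw, one_mul]

/-- weights of the two sides -/
def bd (s : X) (b : Bool) : Finset X → ℝ := if b = true then inn s else out s

theorem bd_nonneg (s : X) (b : Bool) (A : Finset X) : 0 ≤ bd s b A := by
  unfold bd
  split_ifs
  · exact inn_nonneg s A
  · exact out_nonneg s A

theorem hol_bd (s : X) {b b' : Bool} (h : b ≤ b') : Hol (bd s b) (bd s b') := by
  cases b <;> cases b'
  · exact hol_out_out s
  · exact hol_out_inn s
  · exact absurd h (by decide)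
  · exact hol_inn_inn s

theorem rep_insert (hB : BITS_S) (s : X) (S : Finset X) (hs : s ∉ S) (ih : Rep X S) :
    Rep X (insert s S) := by
  classical
  intro T _ _ μ c h0 h1 hH hc
  set p : T → ℝ := fun t => Ex (μ t) (inn s) with hp
  have hpn : ∀ t, 0 ≤ p t := fun t => Ex_nonneg (h0 t) (inn_nonneg s)
  have hpq : ∀ t, Ex (μ t) (out s) = 1 - p t := fun t => Ex_out (h1 t) s
  have hp1 : ∀ t, p t ≤ 1 := fun t => by
    have h2 : 0 ≤ Ex (μ t) (out s) := Ex_nonneg (h0 t) (out_nonneg s)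
    rw [hpq t] at h2
    linarith
  have hpm : ∀ t t', t ≤ t' → p t ≤ p t' := fun t t' h =>
    Ex_le (h0 t) (h0 t') (h1 t) (h1 t') (hH t t' h) (inn_nonneg s) (inn_mono s)
  let T' := {q : T × Bool // (q.2 = true → p q.1 ≠ 0) ∧ (q.2 = false → p q.1 ≠ 1)}
  let μ' : T' → Finset X → ℝ := fun q => tilt (μ q.1.1) (bd s q.1.2)
  let c' : T' → Finset X := fun q => if q.1.2 = true then insert s (c q.1.1) else c q.1.1
  have a1 : ∀ q A, 0 ≤ μ' q A := fun q A => tilt_nonneg (h0 q.1.1) (bd_nonneg s q.1.2) A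
  have a2 : ∀ q, ∑ A, μ' q A = 1 := by
    rintro ⟨⟨t, b⟩, hb1, hb2⟩
    refine tilt_sum ?_
    change Ex (μ t) (bd s b) ≠ 0
    cases b
    · change Ex (μ t) (out s) ≠ 0
      rw [hpq t]
      have := hb2 rfl
      intro h
      exact this (by change p t = 1; linarith)
    · exact hb1 rfl
  have a3 : ∀ q q', q ≤ q' → Hol (μ' q) (μ' q') := by
    rintro ⟨⟨t, b⟩, hb⟩ ⟨⟨t', b'⟩, hb'⟩ h
    have h2 : t ≤ t' ∧ b ≤ b' := h
    exact Hol.tilt (h0 t) (h0 t') (bd_nonneg s b) (bd_nonneg s b') (hH t t' h2.1)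
      (hol_bd s h2.2)
  have a4 : ∀ q A, μ' q A ≠ 0 → A \ S = c' q := by
    rintro ⟨⟨t, b⟩, hb⟩ A hA
    have hA' : tilt (μ t) (bd s b) A ≠ 0 := hA
    have h2 : μ t A ≠ 0 := fun h => hA' (by simp [tilt, h])
    have h3 := hc t A h2
    cases b
    · have h4 : s ∉ A := fun h => hA' (by simp [tilt, bd, out, h])
      change A \ S = c t
      rw [← h3]
      ext x
      simp only [mem_sdiff, mem_insert, not_or]
      constructor
      · rintro ⟨h5, h6⟩
        exact ⟨h5, fun h => h4 (h ▸ h5), h6⟩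
      · rintro ⟨h5, _, h6⟩
        exact ⟨h5, h6⟩
    · have h4 : s ∈ A := by
        by_contra h
        exact hA' (by simp [tilt, bd, inn, h])
      change A \ S = insert s (c t)
      rw [← h3]
      ext x
      simp only [mem_sdiff, mem_insert, not_or]
      constructor
      · rintro ⟨h5, h6⟩
        by_cases hx : x = s
        · exact Or.inl hx
        · exact Or.inr ⟨h5, hx, h6⟩
      · rintro (h5 | ⟨h5, _, h6⟩)
        · subst h5; exact ⟨h4, hs⟩
        · exact ⟨h5, h6⟩
  obtain ⟨κ', _, _, r', Φ', hr0, hr1, hΦ1, hΦ2, hΦ3⟩ := ih T' μ' c' a1 a2 a3 a4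
  set R : Finset ℝ := (univ.image p).filter fun x => 0 < x ∧ x < 1 with hR
  obtain ⟨ρ, hρ0, hρ1, hρ⟩ := hB R (fun t ht => (mem_filter.1 ht).2.1)
    (fun t ht => (mem_filter.1 ht).2.2)
  let bt : T → Finset {x : ℝ // x ∈ R} → Bool := fun t b =>
    decide (p t = 1 ∨ (p t ≠ 0 ∧ ∃ x : {x : ℝ // x ∈ R}, x.1 ≤ p t ∧ x ∈ b))
  have hbt : ∀ t b, bt t b = true ↔ p t = 1 ∨ (p t ≠ 0 ∧ ∃ x : {x : ℝ // x ∈ R},
      x.1 ≤ p t ∧ x ∈ b) := fun t b => decide_eq_true_iff
  let mk : T → Finset {x : ℝ // x ∈ R} → T' := fun t b => ⟨(t, bt t b), by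
    constructor
    · intro h
      rcases (hbt t b).1 h with h2 | h2
      · change p t ≠ 0
        rw [h2]
        exact one_ne_zero
      · exact h2.1
    · intro h h2
      have h2' : p t = 1 := h2
      have h3 : bt t b = true := (hbt t b).2 (Or.inl h2')
      have h4 : bt t b = false := h
      rw [h3] at h4
      exact Bool.noConfusion h4⟩
  have hmk : ∀ t t' b b', t ≤ t' → b ⊆ b' → mk t b ≤ mk t' b' := by
    intro t t' b b' ht hb
    refine ⟨ht, ?_⟩
    change bt t b ≤ bt t' b'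
    refine Bool.le_iff_imp.2 fun h => ?_
    rw [hbt] at h ⊢
    rcases h with h | ⟨h2, x, hx, hxb⟩
    · exact Or.inl (le_antisymm (hp1 t') (h ▸ hpm t t' ht))
    · refine Or.inr ⟨fun h3 => h2 (le_antisymm (h3 ▸ hpm t t' ht) (hpn t)), x,
        hx.trans (hpm t t' ht), hb hxb⟩
  refine ⟨κ' ⊕ {x : ℝ // x ∈ R}, inferInstance, inferInstance,
    Sum.elim r' (fun x => ρ x.1), fun t B => Φ' (mk t B.toRight) B.toLeft, ?_, ?_, ?_, ?_, ?_⟩
  · rintro (i | i)
    · exact hr0 i
    · exact hρ0 _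
  · rintro (i | i)
    · exact hr1 i
    · exact hρ1 _
  · intro t B B' hBB
    refine (hΦ1 _ (toLeft_subset_toLeft hBB)).trans (hΦ2 _ _ (hmk t t _ _ le_rfl
      (toRight_subset_toRight hBB)) _)
  · intro t t' ht B
    exact hΦ2 _ _ (hmk t t' _ _ ht (Subset.refl _)) _
  · intro t u
    set E1 := Ex (tilt (μ t) (inn s)) u with hE1
    set E0 := Ex (tilt (μ t) (out s)) u with hE0
    have b1 : Ex (pw (Sum.elim r' fun x : {x : ℝ // x ∈ R} => ρ x.1))
        (u ∘ fun B => Φ' (mk t B.toRight) B.toLeft) =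
        ∑ b : Finset {x : ℝ // x ∈ R}, pw (fun x : {x : ℝ // x ∈ R} => ρ x.1) b *
          (if bt t b = true then E1 else E0) := by
      have b2 := sum_pw_sum r' (fun x : {x : ℝ // x ∈ R} => ρ x.1)
        (fun a b => u (Φ' (mk t b) a))
      rw [Ex]
      refine b2.trans (sum_congr rfl fun b _ => ?_)
      congr 1
      have b3 := hΦ3 (mk t b) u
      change Ex (pw r') (u ∘ Φ' (mk t b)) = _
      rw [← b3]
      change Ex (tilt (μ t) (bd s (bt t b))) u = _
      by_cases h : bt t b = true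
      · rw [if_pos h, h]
        rfl
      · rw [if_neg h, Bool.eq_false_iff.2 h]
        rfl
    rw [b1]
    have b4 : ∑ b : Finset {x : ℝ // x ∈ R}, pw (fun x : {x : ℝ // x ∈ R} => ρ x.1) b *
        (if bt t b = true then 0 else 1) = 1 - p t := by
      by_cases hz : p t = 0
      · have : ∀ b, ¬ bt t b = true := by
          intro b h
          rw [hbt] at h
          rcases h with h | h
          · rw [hz] at h; exact zero_ne_one h
          · exact h.1 hz
        rw [hz, sub_zero]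
        refine (sum_congr rfl fun b _ => ?_).trans
          (sum_pw (fun x : {x : ℝ // x ∈ R} => ρ x.1))
        rw [if_neg (this b), mul_one]
      by_cases hz1 : p t = 1
      · have : ∀ b, bt t b = true := fun b => (hbt t b).2 (Or.inl hz1)
        rw [hz1, sub_self]
        refine sum_eq_zero fun b _ => ?_
        rw [if_pos (this b), mul_zero]
      have hmem : p t ∈ R := by
        rw [hR, mem_filter]
        exact ⟨mem_image_of_mem _ (mem_univ t), lt_of_le_of_ne (hpn t) (Ne.symm hz),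
          lt_of_le_of_ne (hp1 t) hz1⟩
      rw [← hρ (p t) hmem]
      have b5 := sum_pw_avoid (fun x : {x : ℝ // x ∈ R} => ρ x.1)
        (univ.filter fun x : {x : ℝ // x ∈ R} => x.1 ≤ p t)
      have b6 : ∏ i ∈ univ.filter (fun x : {x : ℝ // x ∈ R} => x.1 ≤ p t), (1 - ρ i.1) =
          ∏ x ∈ R.filter (· ≤ p t), (1 - ρ x) := by
        refine prod_bij (fun i _ => i.1) ?_ ?_ ?_ ?_
        · intro i hi
          rw [mem_filter] at hi ⊢
          exact ⟨i.2, hi.2⟩
        · intro i _ j _ h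
          exact Subtype.ext h
        · intro x hx
          rw [mem_filter] at hx
          exact ⟨⟨x, hx.1⟩, mem_filter.2 ⟨mem_univ _, hx.2⟩, rfl⟩
        · intro i _
          rfl
      rw [← b6, ← b5]
      refine sum_congr rfl fun b _ => ?_
      congr 1
      by_cases h : bt t b = true
      · rw [if_pos h, if_neg]
        rw [hbt] at h
        rcases h with h | ⟨_, x, hx, hxb⟩
        · exact absurd h hz1
        · rw [not_disjoint_iff]
          exact ⟨x, hxb, mem_filter.2 ⟨mem_univ _, hx⟩⟩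
      · rw [if_neg h, if_pos]
        rw [disjoint_left]
        intro x hxb hx
        rw [mem_filter] at hx
        exact h ((hbt t b).2 (Or.inr ⟨hz, x, hx.2, hxb⟩))
    have b7 : ∀ b : Finset {x : ℝ // x ∈ R}, pw (fun x : {x : ℝ // x ∈ R} => ρ x.1) b *
        (if bt t b = true then E1 else E0) =
        pw (fun x : {x : ℝ // x ∈ R} => ρ x.1) b * E1 +
        pw (fun x : {x : ℝ // x ∈ R} => ρ x.1) b * (if bt t b = true then 0 else 1) *
          (E0 - E1) := by
      intro b
      split_ifs <;> ring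
    rw [sum_congr rfl fun b _ => b7 b, sum_add_distrib, ← sum_mul, ← sum_mul, b4, sum_pw,
      Ex_split (h0 t) (h1 t) s u]
    ring

theorem rep_all (hB : BITS_S) (S : Finset X) : Rep X S := by
  induction S using Finset.induction_on with
  | empty => exact rep_empty
  | insert s S hs ih => exact rep_insert hB s S hs ih

/-- module REPR -/
theorem repr (hB : BITS_S) : REPR_S := by
  intro X _ _ w hw
  obtain ⟨κ, i1, i2, r, Φ, h0, h1, h2, -, h3⟩ := rep_all hB (univ : Finset X) Unit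
    (fun _ => w) (fun _ => ∅) (fun _ => hw.nn) (fun _ => hw.sum) (fun _ _ _ => hw.lsm)
    (fun _ A _ => by simp)
  exact ⟨κ, i1, i2, r, Φ (), h0, h1, h2 (), fun u => h3 () u⟩

end Pool.Agent.Lib.MP_17d4d1_pr.S.H72
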