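import Pool.Agent.Lib.MP_17d4d1_pr.S.Iface

set_option autoImplicit false
set_option linter.unusedSectionVars false

/-!
# STAR0: the second functional for weights that live on the subsets of `Y` (helper72)
-/

namespace Pool.Agent.Lib.MP_17d4d1_pr.S.H72

open Finset Pool.Agent.Lib.MP_17d4d1_pr Pool.Agent.Lib.MP_17d4d1_pr.S

variable {X : Type} [Fintype X] [DecidableEq X]

theorem Ind.nn' {f : Finset X → ℝ} (hf : Ind f) (A : Finset X) : 0 ≤ f A := by
  rcases hf.val A with h | h <;> rw [h]; norm_num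

theorem Ind.le1 {f : Finset X → ℝ} (hf : Ind f) (A : Finset X) : f A ≤ 1 := by
  rcases hf.val A with h | h <;> rw [h]; norm_num

theorem Ind.up {f : Finset X → ℝ} (hf : Ind f) {A B : Finset X} (hAB : A ⊆ B) (hA : f A = 1) :
    f B = 1 := by
  have h := hf.mono hAB
  rw [hA] at h
  exact le_antisymm (Ind.le1 hf B) h

theorem ind_thr (Y : Finset X) : Ind (thr Y) := by
  refine ⟨fun A => ?_, fun A B hAB => ?_⟩
  · unfold thr
    split_ifs
    · exact Or.inr rfl
    · exact Or.inl rfl
  · unfold thr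
    have h : (A ∩ Y).card ≤ (B ∩ Y).card := card_le_card (inter_subset_inter_right hAB)
    split_ifs with h1 h2
    · exact le_rfl
    · exact absurd (h1.trans h) h2
    · exact zero_le_one
    · exact le_rfl

theorem Ex_sub (w u v : Finset X → ℝ) : Ex w (u - v) = Ex w u - Ex w v := by
  simp only [Ex, Pi.sub_apply, mul_sub, sum_sub_distrib]

theorem Ex_one {w : Finset X → ℝ} (hw : ∑ A, w A = 1) : Ex w 1 = 1 := by
  have := Ex_const hw 1
  exact this

theorem Ex_mono {w u v : Finset X → ℝ} (hw : ∀ A, 0 ≤ w A) (h : ∀ A, u A ≤ v A) :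
    Ex w u ≤ Ex w v :=
  sum_le_sum fun A _ => mul_le_mul_of_nonneg_left (h A) (hw A)

theorem LS_comm (w f g h : Finset X → ℝ) : LS w f g h = LS w g f h := by
  unfold LS
  rw [mul_comm f g]
  ring

theorem LS_one {w g h : Finset X → ℝ} (hw : ∑ A, w A = 1) : LS w 1 g h = 0 := by
  unfold LS
  have e1 : (1 : Finset X → ℝ) * (1 - h) = 1 - h := by ring
  have e2 : g * (1 - h) = g - g * h := by ring
  have e3 : (1 : Finset X → ℝ) * g * h = g * h := by ring
  rw [e1, e2, e3, Ex_sub, Ex_sub, Ex_one hw]
  ring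

theorem eq_one_of {f : Finset X → ℝ} (hf : Ind f) (h : f ∅ = 1) : f = 1 := by
  funext A
  exact Ind.up hf (empty_subset A) h

theorem LS_congr {w f g h h' : Finset X → ℝ} (H : ∀ A, w A ≠ 0 → h A = h' A) :
    LS w f g h = LS w f g h' := by
  unfold LS
  rw [Ex_congr (w := w) (u := f * (1 - h)) (v := f * (1 - h')) fun A hA => by
      simp only [Pi.mul_apply, Pi.sub_apply, H A hA],
    Ex_congr (w := w) (u := g * (1 - h)) (v := g * (1 - h')) fun A hA => by
      simp only [Pi.mul_apply, Pi.sub_apply, H A hA],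
    Ex_congr (w := w) (u := h) (v := h') H,
    Ex_congr (w := w) (u := f * g * h) (v := f * g * h') fun A hA => by
      simp only [Pi.mul_apply, H A hA]]

theorem inn_mono' (s : X) : Monotone (inn s) := by
  intro A B hAB
  unfold inn
  by_cases hA : s ∈ A
  · simp [hA, hAB hA]
  · rw [if_neg hA]; split_ifs <;> norm_num

theorem case1 {Y : Finset X} {v : X}
    (ih : ∀ w f g : Finset X → ℝ, FKGW w → (∀ A, w A ≠ 0 → A ⊆ Y.erase v) → Ind f → Ind g →
      0 ≤ LS w f g (thr (Y.erase v)))
    {w f g : Finset X → ℝ} (hw : FKGW w) (hY : ∀ A, w A ≠ 0 → A ⊆ Y) (hf : Ind f) (hg : Ind g)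
    (hfv : f {v} = 1) (hgv : g {v} = 0) : 0 ≤ LS w f g (thr Y) := by
  set p := Ex w (inn v) with hp
  set w0 := tilt w (out v) with hw0
  set w1 := tilt w (inn v) with hw1
  set h := thr Y with hh
  have hhi : Ind h := ind_thr Y
  have split : ∀ u, Ex w u = (1 - p) * Ex w0 u + p * Ex w1 u := Ex_split hw.nn hw.sum v
  have hp0 : 0 ≤ p := Ex_nonneg hw.nn (inn_nonneg v)
  have hqo : 1 - p = Ex w (out v) := (Ex_out hw.sum v).symm
  have hq0 : 0 ≤ 1 - p := by rw [hqo]; exact Ex_nonneg hw.nn (out_nonneg v)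
  have n0 : ∀ A, 0 ≤ w0 A := tilt_nonneg hw.nn (out_nonneg v)
  have n1 : ∀ A, 0 ≤ w1 A := tilt_nonneg hw.nn (inn_nonneg v)
  have s0 : 1 - p ≠ 0 → ∑ A, w0 A = 1 := fun H => tilt_sum (by rw [hqo] at H; exact H)
  have s1 : p ≠ 0 → ∑ A, w1 A = 1 := fun H => tilt_sum H
  have supp0 : ∀ A, w0 A ≠ 0 → v ∉ A ∧ A ⊆ Y := by
    intro A hA
    have h2 : w A ≠ 0 := fun H => hA (by simp [w0, tilt, H])
    have h3 : v ∉ A := fun H => hA (by simp [w0, tilt, out, H])
    exact ⟨h3, hY A h2⟩
  have supp1 : ∀ A, w1 A ≠ 0 → v ∈ A ∧ A ⊆ Y := by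
    intro A hA
    have h2 : w A ≠ 0 := fun H => hA (by simp [w1, tilt, H])
    have h3 : v ∈ A := by
      by_contra H
      exact hA (by simp [w1, tilt, inn, H])
    exact ⟨h3, hY A h2⟩
  have f1 : ∀ A, w1 A ≠ 0 → f A = 1 := fun A hA =>
    Ind.up hf (singleton_subset_iff.2 (supp1 A hA).1) hfv
  have g1 : ∀ A, w1 A ≠ 0 → g A * (1 - h A) = 0 := by
    intro A hA
    obtain ⟨h3, h4⟩ := supp1 A hA
    by_cases h5 : 2 ≤ (A ∩ Y).card
    · have : h A = 1 := by
        rw [hh]
        unfold thr
        rw [if_pos h5]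
      rw [this, sub_self, mul_zero]
    · rw [inter_eq_left.2 h4] at h5
      have h6 : A = {v} := by
        symm
        refine eq_of_subset_of_card_le (singleton_subset_iff.2 h3) ?_
        rw [card_singleton]
        omega
      rw [h6, hgv, zero_mul]
  have b1 : Ex w1 (g * (1 - h)) = 0 := by
    have : Ex w1 (g * (1 - h)) = Ex w1 (fun _ => 0) := Ex_congr fun A hA => g1 A hA
    rw [this]
    simp [Ex]
  have a1 : Ex w1 (f * (1 - h)) = Ex w1 (1 - h) := Ex_congr fun A hA => by
    simp only [Pi.mul_apply, f1 A hA, one_mul]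
  have e1 : Ex w1 (f * g * h) = Ex w1 g := Ex_congr fun A hA => by
    have h2 := g1 A hA
    simp only [Pi.mul_apply, f1 A hA, one_mul]
    linarith
  have F1 : p ≠ 0 → Ex w1 f = 1 := fun H => by
    rw [← Ex_one (s1 H)]
    exact Ex_congr fun A hA => f1 A hA
  have U1 : p ≠ 0 → Ex w1 (1 - h) = 1 - Ex w1 h := fun H => by
    rw [Ex_sub, Ex_one (s1 H)]
  have U1n : 0 ≤ Ex w1 (1 - h) := Ex_nonneg n1 fun A => by
    have := Ind.le1 hhi A
    simp only [Pi.sub_apply, Pi.one_apply]
    linarith
  -- the side without `v`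
  have fk0 : 1 - p ≠ 0 → FKGW w0 := fun H =>
    ⟨n0, s0 H, Hol.tilt hw.nn hw.nn (out_nonneg v) (out_nonneg v) hw.lsm (hol_out_out v)⟩
  have IH : 1 - p ≠ 0 → 0 ≤ LS w0 f g h := by
    intro H
    have h2 := ih w0 f g (fk0 H) (fun A hA => subset_erase.2 ⟨(supp0 A hA).2, (supp0 A hA).1⟩)
      hf hg
    rw [LS_congr (h' := h)] at h2
    · exact h2
    · intro A hA
      have h3 := (supp0 A hA).1
      rw [hh]
      unfold thr
      rw [inter_erase, erase_eq_of_notMem fun H => h3 (mem_inter.1 H).1]
  by_cases hq : 1 - p = 0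
  · have hp' : p ≠ 0 := by intro H; rw [H] at hq; norm_num at hq
    have hp1 : p = 1 := by linarith
    unfold LS
    rw [split (f * (1 - h)), split (g * (1 - h)), split h, split f, split g, split (f * g * h),
      hq, hp1, b1, a1, e1, F1 hp', U1 hp']
    apply le_of_eq
    ring
  by_cases hpz : p = 0
  · have h2 := IH hq
    unfold LS at h2 ⊢
    rw [split (f * (1 - h)), split (g * (1 - h)), split h, split f, split g, split (f * g * h),
      hpz]
    simpa using h2
  -- both sides are charged
  have h2 := IH hq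
  have hqpos : 0 < 1 - p := lt_of_le_of_ne hq0 (Ne.symm hq)
  have hppos : 0 < p := lt_of_le_of_ne hp0 (Ne.symm hpz)
  have U0 : Ex w0 (1 - h) = 1 - Ex w0 h := by rw [Ex_sub, Ex_one (s0 hq)]
  have hG : Ex w0 g ≤ Ex w1 g := Ex_le n0 n1 (s0 hq) (s1 hpz)
    (Hol.tilt hw.nn hw.nn (out_nonneg v) (inn_nonneg v) hw.lsm (hol_out_inn v))
    (Ind.nn' hg) hg.mono
  have hF : Ex w0 f ≤ 1 := by
    rw [← Ex_one (s0 hq)]
    exact Ex_mono n0 fun A => Ind.le1 hf A
  have ha0 : 0 ≤ Ex w0 (f * (1 - h)) := Ex_nonneg n0 fun A => by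
    have := Ind.le1 hhi A
    simp only [Pi.mul_apply, Pi.sub_apply, Pi.one_apply]
    exact mul_nonneg (Ind.nn' hf A) (by linarith)
  have hb0 : 0 ≤ Ex w0 (g * (1 - h)) := Ex_nonneg n0 fun A => by
    have := Ind.le1 hhi A
    simp only [Pi.mul_apply, Pi.sub_apply, Pi.one_apply]
    exact mul_nonneg (Ind.nn' hg A) (by linarith)
  have haU : Ex w0 (f * (1 - h)) ≤ 1 - Ex w0 h := by
    rw [← U0]
    refine Ex_mono n0 fun A => ?_
    have h3 := Ind.le1 hhi A
    have h4 := Ind.le1 hf A
    simp only [Pi.mul_apply, Pi.sub_apply, Pi.one_apply]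
    nlinarith
  have hbU : Ex w0 (g * (1 - h)) ≤ 1 - Ex w0 h := by
    rw [← U0]
    refine Ex_mono n0 fun A => ?_
    have h3 := Ind.le1 hhi A
    have h4 := Ind.le1 hg A
    simp only [Pi.mul_apply, Pi.sub_apply, Pi.one_apply]
    nlinarith
  -- positivity of `b0 + Θ0`
  have hbT : 0 ≤ Ex w0 (g * (1 - h)) + (Ex w0 (f * g * h) - Ex w0 f * Ex w0 g) := by
    by_cases hU : 1 - Ex w0 h = 0
    · -- everything sits above
      have z1 : Ex w0 (g * (1 - h)) = 0 := le_antisymm (hU ▸ hbU) hb0
      have z2 : Ex w0 (f * g * h) = Ex w0 (f * g) := by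
        have e2 : Ex w0 (f * g) - Ex w0 (f * g * h) = Ex w0 (f * g * (1 - h)) := by
          rw [← Ex_sub]
          congr 1
          ring
        have e3 : 0 ≤ Ex w0 (f * g * (1 - h)) := Ex_nonneg n0 fun A => by
          have := Ind.le1 hhi A
          simp only [Pi.mul_apply, Pi.sub_apply, Pi.one_apply]
          exact mul_nonneg (mul_nonneg (Ind.nn' hf A) (Ind.nn' hg A)) (by linarith)
        have e4 : Ex w0 (f * g * (1 - h)) ≤ Ex w0 (g * (1 - h)) := by
          refine Ex_mono n0 fun A => ?_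
          have h3 := Ind.le1 hhi A
          have h4 := Ind.le1 hf A
          have h5 := Ind.nn' hg A
          simp only [Pi.mul_apply, Pi.sub_apply, Pi.one_apply]
          have h6 : 0 ≤ g A * (1 - h A) := mul_nonneg h5 (by linarith)
          nlinarith
        linarith
      have z3 := Ex_fkg n0 (s0 hq) (fk0 hq).lsm (Ind.nn' hf) hf.mono (Ind.nn' hg) hg.mono
      rw [z1, z2]
      linarith
    · have hUpos : 0 < 1 - Ex w0 h := lt_of_le_of_ne (ha0.trans haU) (Ne.symm hU)
      unfold LS at h2
      have h3 : 0 ≤ (1 - Ex w0 h) *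
          (Ex w0 (g * (1 - h)) + (Ex w0 (f * g * h) - Ex w0 f * Ex w0 g)) := by
        have h4 : 0 ≤ ((1 - Ex w0 h) - Ex w0 (f * (1 - h))) * Ex w0 (g * (1 - h)) :=
          mul_nonneg (by linarith) hb0
        nlinarith
      exact nonneg_of_mul_nonneg_right h3 hUpos
  -- assembling
  have key : LS w f g h = (1 - p) * ((1 - p) * LS w0 f g h +
      p * Ex w1 (1 - h) * (Ex w0 (g * (1 - h)) + (Ex w0 (f * g * h) - Ex w0 f * Ex w0 g)) +
      ((1 - p) * (1 - Ex w0 h) + p * Ex w1 (1 - h)) * (p * ((1 - Ex w0 f) *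
        (Ex w1 g - Ex w0 g)))) := by
    unfold LS
    rw [split (f * (1 - h)), split (g * (1 - h)), split h, split f, split g, split (f * g * h),
      b1, a1, e1, F1 hpz, U1 hpz]
    ring
  rw [key]
  have k1 : 0 ≤ (1 - p) * LS w0 f g h := mul_nonneg hq0 h2
  have k2 : 0 ≤ p * Ex w1 (1 - h) *
      (Ex w0 (g * (1 - h)) + (Ex w0 (f * g * h) - Ex w0 f * Ex w0 g)) :=
    mul_nonneg (mul_nonneg hp0 U1n) hbT
  have k3 : 0 ≤ ((1 - p) * (1 - Ex w0 h) + p * Ex w1 (1 - h)) * (p * ((1 - Ex w0 f) *
        (Ex w1 g - Ex w0 g))) :=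
    mul_nonneg (add_nonneg (mul_nonneg hq0 (ha0.trans haU)) (mul_nonneg hp0 U1n))
      (mul_nonneg hp0 (mul_nonneg (by linarith) (by linarith)))
  exact mul_nonneg hq0 (by linarith)

theorem case2 {Y : Finset X} {w f g : Finset X → ℝ} (hw : FKGW w)
    (hY : ∀ A, w A ≠ 0 → A ⊆ Y) (hf : Ind f) (hg : Ind g) (f0 : f ∅ = 0) (g0 : g ∅ = 0)
    (hfg : ∀ v ∈ Y, f {v} = g {v}) : 0 ≤ LS w f g (thr Y) := by
  classical
  set h := thr Y with hh
  have hhi : Ind h := ind_thr Y
  set I := Y.filter fun v => f {v} = 1 with hI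
  set om : Finset X → ℝ := fun A => if Disjoint A I then 1 else 0 with hom
  have omn : ∀ A, 0 ≤ om A := fun A => by simp only [hom]; split_ifs <;> norm_num
  have om1 : ∀ A, om A ≤ 1 := fun A => by simp only [hom]; split_ifs <;> norm_num
  have omm : ∀ A B, om A * om B ≤ om (A ⊓ B) * om (A ⊔ B) := by
    intro A B
    simp only [hom]
    by_cases h1 : Disjoint A I
    · by_cases h2 : Disjoint B I
      · have h3 : Disjoint (A ⊓ B) I := h1.mono_left inf_le_left
        have h4 : Disjoint (A ⊔ B) I := Disjoint.sup_left h1 h2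
        rw [if_pos h1, if_pos h2, if_pos h3, if_pos h4]
      · rw [if_neg h2, mul_zero]
        exact mul_nonneg (by split_ifs <;> norm_num) (by split_ifs <;> norm_num)
    · rw [if_neg h1, zero_mul]
      exact mul_nonneg (by split_ifs <;> norm_num) (by split_ifs <;> norm_num)
  -- `e = 1` implies `om = 1`
  have fo : ∀ A, (1 - f A) * om A = 1 - f A := by
    intro A
    rcases hf.val A with hA | hA
    · have : Disjoint A I := by
        rw [disjoint_left]
        intro v hvA hvI
        rw [hI, mem_filter] at hvI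
        have := Ind.up hf (singleton_subset_iff.2 hvA) hvI.2
        rw [hA] at this
        norm_num at this
      simp only [hom, if_pos this, mul_one]
    · rw [hA, sub_self, zero_mul]
  have go : ∀ A, w A ≠ 0 → (1 - g A) * om A = 1 - g A := by
    intro A hwA
    rcases hg.val A with hA | hA
    · have : Disjoint A I := by
        rw [disjoint_left]
        intro v hvA hvI
        rw [hI, mem_filter] at hvI
        have := Ind.up hg (singleton_subset_iff.2 hvA) ((hfg v hvI.1).symm.trans hvI.2)
        rw [hA] at this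
        norm_num at this
      simp only [hom, if_pos this, mul_one]
    · rw [hA, sub_self, zero_mul]
  -- below
  have low : ∀ A, w A ≠ 0 → (1 - f A) * (1 - h A) = om A * (1 - h A) ∧
      (1 - g A) * (1 - h A) = om A * (1 - h A) := by
    intro A hwA
    have hAY := hY A hwA
    by_cases h5 : 2 ≤ (A ∩ Y).card
    · have : h A = 1 := by
        rw [hh]
        unfold thr
        rw [if_pos h5]
      rw [this, sub_self, mul_zero, mul_zero, mul_zero]
      exact ⟨rfl, rfl⟩
    · rw [inter_eq_left.2 hAY] at h5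
      rcases A.eq_empty_or_nonempty with rfl | hne
      · have h6 : om ∅ = 1 := by
          simp only [hom]
          rw [if_pos (disjoint_empty_left I)]
        rw [f0, g0, h6, sub_zero]
        exact ⟨rfl, rfl⟩
      · have h6 : A.card = 1 := by
          have := card_pos.2 hne
          omega
        obtain ⟨v, rfl⟩ := card_eq_one.1 h6
        have hvY : v ∈ Y := hAY (mem_singleton_self v)
        rcases hf.val {v} with hv | hv
        · have h7 : om {v} = 1 := by
            simp only [hom]
            rw [if_pos]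
            rw [disjoint_singleton_left, hI, mem_filter]
            rintro ⟨-, h8⟩
            rw [hv] at h8
            exact zero_ne_one h8
          rw [← hfg v hvY, hv, h7, sub_zero]
          exact ⟨rfl, rfl⟩
        · have h7 : om {v} = 0 := by
            simp only [hom]
            rw [if_neg]
            rw [disjoint_singleton_left, hI, mem_filter, not_not]
            exact ⟨hvY, hv⟩
          rw [← hfg v hvY, hv, h7, sub_self]
          exact ⟨rfl, rfl⟩
  set U := 1 - Ex w h with hU
  set k := Ex w (om * (1 - h)) with hk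
  have U1 : Ex w (1 - h) = U := by rw [Ex_sub, Ex_one hw.sum]
  have k1 : Ex w ((1 - f) * (1 - h)) = k := Ex_congr fun A hA => by
    simpa only [Pi.mul_apply, Pi.sub_apply, Pi.one_apply] using (low A hA).1
  have k2 : Ex w ((1 - g) * (1 - h)) = k := Ex_congr fun A hA => by
    simpa only [Pi.mul_apply, Pi.sub_apply, Pi.one_apply] using (low A hA).2
  set P := Ex w ((1 - f) * (1 - g) * h) with hP
  set F := Ex w (1 - f) with hF
  set G := Ex w (1 - g) with hG
  set O := Ex w om with hO
  have c1 : Ex w (f * (1 - h)) = U - k := by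
    rw [← U1, ← k1, ← Ex_sub]
    congr 1
    ring
  have c2 : Ex w (g * (1 - h)) = U - k := by
    rw [← U1, ← k2, ← Ex_sub]
    congr 1
    ring
  have c3 : Ex w f = 1 - F := by
    rw [hF, Ex_sub, Ex_one hw.sum]
    ring
  have c4 : Ex w g = 1 - G := by
    rw [hG, Ex_sub, Ex_one hw.sum]
    ring
  have c5 : Ex w (f * g * h) = (1 - U) - (F - k) - (G - k) + P := by
    have d1 : f * g * h = h - ((1 - f) - (1 - f) * (1 - h)) - ((1 - g) - (1 - g) * (1 - h)) +
        (1 - f) * (1 - g) * h := by ring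
    rw [d1, Ex_add, Ex_sub w _ ((1 - g) - (1 - g) * (1 - h)),
      Ex_sub w h ((1 - f) - (1 - f) * (1 - h)), Ex_sub w (1 - f) ((1 - f) * (1 - h)),
      Ex_sub w (1 - g) ((1 - g) * (1 - h)), k1, k2, ← hF, ← hG, ← hP, hU]
    ring
  have key : LS w f g h = k ^ 2 + U * (P - F * G) := by
    unfold LS
    rw [c1, c2, c3, c4, c5, ← hU]
    ring
  have Un : 0 ≤ U := by
    rw [← U1]
    exact Ex_nonneg hw.nn fun A => by
      have := Ind.le1 hhi A
      simp only [Pi.sub_apply, Pi.one_apply]
      linarith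
  have kn : 0 ≤ k := Ex_nonneg hw.nn fun A => by
    have := Ind.le1 hhi A
    simp only [Pi.mul_apply, Pi.sub_apply, Pi.one_apply]
    exact mul_nonneg (omn A) (by linarith)
  have Pn : 0 ≤ P := Ex_nonneg hw.nn fun A => by
    have h1 := Ind.le1 hf A
    have h2 := Ind.le1 hg A
    simp only [Pi.mul_apply, Pi.sub_apply, Pi.one_apply]
    exact mul_nonneg (mul_nonneg (by linarith) (by linarith)) (Ind.nn' hhi A)
  have O1 : O ≤ 1 := by
    rw [← Ex_one hw.sum]
    exact Ex_mono hw.nn om1
  -- FKG with the weights `w * om`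
  have i1 : F * G ≤ O * (P + k) := by
    have h1 := fkg (μ := fun A => w A * om A) (f := f) (g := g)
      (fun A => mul_nonneg (hw.nn A) (omn A)) (Ind.nn' hf) (Ind.nn' hg) hf.mono hg.mono
      (fun A B => by
        have h2 := hw.lsm A B
        have h3 := omm A B
        calc w A * om A * (w B * om B) = (w A * w B) * (om A * om B) := by ring
          _ ≤ (w (A ⊓ B) * w (A ⊔ B)) * (om (A ⊓ B) * om (A ⊔ B)) :=
              mul_le_mul h2 h3 (mul_nonneg (omn A) (omn B))
                (mul_nonneg (hw.nn _) (hw.nn _))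
          _ = _ := by ring)
    have e1 : ∑ A, w A * om A * f A = O - F := by
      have : F = Ex w (om * (1 - f)) := Ex_congr fun A _ => by
        have := fo A
        simp only [Pi.mul_apply, Pi.sub_apply, Pi.one_apply]
        linarith
      rw [this, hO, ← Ex_sub]
      refine sum_congr rfl fun A _ => ?_
      simp only [Pi.mul_apply, Pi.sub_apply, Pi.one_apply]
      ring
    have e2 : ∑ A, w A * om A * g A = O - G := by
      have : G = Ex w (om * (1 - g)) := Ex_congr fun A hA => by
        have := go A hA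
        simp only [Pi.mul_apply, Pi.sub_apply, Pi.one_apply]
        linarith
      rw [this, hO, ← Ex_sub]
      refine sum_congr rfl fun A _ => ?_
      simp only [Pi.mul_apply, Pi.sub_apply, Pi.one_apply]
      ring
    have e3 : ∑ A, w A * om A = O := rfl
    have e4 : ∑ A, w A * om A * (f A * g A) = O - F - G + (P + k) := by
      have d1 : P + k = Ex w ((1 - f) * (1 - g) * om) := by
        have d2 : k = Ex w ((1 - f) * (1 - g) * (1 - h)) := Ex_congr fun A hA => by
          have l1 := (low A hA).1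
          have l2 := (low A hA).2
          have l3 := fo A
          simp only [Pi.mul_apply, Pi.sub_apply, Pi.one_apply]
          calc om A * (1 - h A) = (1 - f A) * (1 - h A) := l1.symm
            _ = ((1 - f A) * om A) * (1 - h A) := by rw [l3]
            _ = (1 - f A) * (om A * (1 - h A)) := by ring
            _ = (1 - f A) * ((1 - g A) * (1 - h A)) := by rw [l2]
            _ = _ := by ring
        rw [d2, hP, ← Ex_add]
        refine Ex_congr fun A _ => ?_
        have l3 := fo A
        simp only [Pi.mul_apply, Pi.sub_apply, Pi.one_apply, Pi.add_apply]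
        calc (1 - f A) * (1 - g A) * h A + (1 - f A) * (1 - g A) * (1 - h A) =
            (1 - f A) * (1 - g A) := by ring
          _ = ((1 - f A) * om A) * (1 - g A) := by rw [l3]
          _ = _ := by ring
      have d3 : F = Ex w (om * (1 - f)) := Ex_congr fun A _ => by
        have := fo A
        simp only [Pi.mul_apply, Pi.sub_apply, Pi.one_apply]
        linarith
      have d4 : G = Ex w (om * (1 - g)) := Ex_congr fun A hA => by
        have := go A hA
        simp only [Pi.mul_apply, Pi.sub_apply, Pi.one_apply]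
        linarith
      rw [d1, d3, d4, hO, ← Ex_sub, ← Ex_sub, ← Ex_add]
      refine sum_congr rfl fun A _ => ?_
      simp only [Pi.mul_apply, Pi.sub_apply, Pi.one_apply, Pi.add_apply]
      ring
    rw [e1, e2, e3, e4] at h1
    nlinarith
  -- FKG for `w`
  have i2 : O * U ≤ k := by
    have h1 := Ex_fkg (f := 1 - om) (g := h) hw.nn hw.sum hw.lsm
      (fun A => by
        have := om1 A
        simp only [Pi.sub_apply, Pi.one_apply]
        linarith)
      (fun A B hAB => by
        simp only [Pi.sub_apply, Pi.one_apply, hom]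
        by_cases h2 : Disjoint B I
        · rw [if_pos h2, if_pos (h2.mono_left hAB)]
        · rw [if_neg h2]
          split_ifs <;> norm_num)
      (Ind.nn' hhi) hhi.mono
    have d1 : (1 - om) * h = h - om + om * (1 - h) := by ring
    rw [d1, Ex_add, Ex_sub, Ex_sub, Ex_one hw.sum, ← hk, ← hO] at h1
    have d2 : Ex w h = 1 - U := by rw [hU]; ring
    rw [d2] at h1
    nlinarith
  rw [key]
  have j1 : U * (F * G) ≤ U * (O * (P + k)) := mul_le_mul_of_nonneg_left i1 Un
  have j2 : 0 ≤ k * (k - O * U) := mul_nonneg kn (by linarith)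
  have j3 : 0 ≤ U * ((1 - O) * P) := mul_nonneg Un (mul_nonneg (by linarith) Pn)
  nlinarith

/-- module STAR0 -/
theorem star0 : STAR0_S := by
  intro X _ _ Y
  induction Y using Finset.strongInduction with
  | H Y ih =>
    intro w f g hw hY hf hg
    rcases hf.val ∅ with f0 | f0
    swap
    · rw [eq_one_of hf f0, LS_one hw.sum]
    rcases hg.val ∅ with g0 | g0
    swap
    · rw [LS_comm, eq_one_of hg g0, LS_one hw.sum]
    by_cases hex : ∃ v ∈ Y, f {v} ≠ g {v}
    · obtain ⟨v, hv, hne⟩ := hex
      rcases hf.val {v} with h1 | h1 <;> rcases hg.val {v} with h2 | h2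
      · exact absurd (h1.trans h2.symm) hne
      · rw [LS_comm]
        exact case1 (ih (Y.erase v) (erase_ssubset hv)) hw hY hg hf h2 h1
      · exact case1 (ih (Y.erase v) (erase_ssubset hv)) hw hY hf hg h1 h2
      · exact absurd (h1.trans h2.symm) hne
    · push Not at hex
      exact case2 hw hY hf hg f0 g0 hex

end Pool.Agent.Lib.MP_17d4d1_pr.S.H72
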